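import Pool.Agent.Helper30.TY.Thick
import Pool.Agent.Helper29.TG.Df

/-!
# The contact with a fixed point of a curve
-/

set_option autoImplicit false

namespace Pool.Agent.Helper30.TY

open MvPolynomial Height Height.AdmissibleAbsValues
open Pool.Agent.Helper30.ZB
open Pool.Agent.Helper29.TG

variable {ν : ℕ} {K : Type} [Field K]

/-- The linear form `x ↦ y_p x_q - y_q x_p`. -/
def mf (y : Fin (ν + 1) → K) (q : Fin (ν + 1) × Fin (ν + 1)) (i : Fin (ν + 1)) : K :=
  (if i = q.2 then y q.1 else 0) - if i = q.1 then y q.2 else 0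

theorem eval_mf (y x : Fin (ν + 1) → K) (q : Fin (ν + 1) × Fin (ν + 1)) :
    eval x (lf K (mf y q)) = cr y x q := by
  rw [eval_lf]
  simp only [mf, sub_mul, ite_mul, zero_mul, Finset.sum_sub_distrib, Finset.sum_ite_eq',
    Finset.mem_univ, if_true, cr]

/-- **The contact with a fixed point `y` of a curve is comparable with the height.** -/
theorem exists_low_point [AdmissibleAbsValues K] [Infinite K]
    {J : Ideal (MvPolynomial (Fin (ν + 1)) K)} (hp : J.IsPrime)
    (hJ : Hom J) {δ c₀ : ℕ} (hδ : ∀ m, R J m ≤ δ * m + c₀) {ℓ : Fin (ν + 1) → K}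
    (hℓ : lf K ℓ ∉ J) {y : Fin (ν + 1) → K} (hy : y ≠ 0) (hyJ : ∀ g ∈ J, eval y g = 0)
    (hyℓ : eval y (lf K ℓ) = 0) :
    ∃ (k : ℕ) (C : ℝ) (G : MvPolynomial (Fin (ν + 1)) K) (e : ℕ), G.IsHomogeneous e ∧ G ∉ J ∧
      ∀ x : Fin (ν + 1) → K, (∀ g ∈ J, eval x g = 0) → eval x G ≠ 0 → cr y x ≠ 0 ∧
        logHeight x ≤ k * ls (fun v => ct v y x) + C := by
  classical
  obtain ⟨a, k, H, hH, hHJ, hB⟩ := exists_thick hp hJ hδ hℓ hy hyJ hyℓ
  have hB' : ∀ q, ∃ B : MvPolynomial (Fin (ν + 1)) K, B.IsHomogeneous k ∧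
      lf K (mf y q) ^ (k + 1) * H - lf K ℓ ^ (a + 1) * B ∈ J := fun q => hB _ (by
    rw [eval_mf]
    simp only [cr]
    ring)
  choose B hBh hBJ using hB'
  choose c hcFS hc0 hcle using fun q => exists_log_eval_le (hBh q)
  set cc : AbsoluteValue K ℝ → ℝ := fun v => ∑ q, c q v with hcc
  have hccFS : FS cc := FS.sum _ fun q _ => hcFS q
  refine ⟨k + 1, ls cc - (k + 1) * logHeight y, H * lf K ℓ, a + 1, hH.mul (Quot_lf_hom ℓ),
    fun h => (hp.mem_or_mem h).elim hHJ hℓ, fun x hxJ hxG => ?_⟩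
  rw [map_mul] at hxG
  have hxH : eval x H ≠ 0 := left_ne_zero_of_mul hxG
  have hxℓ : eval x (lf K ℓ) ≠ 0 := right_ne_zero_of_mul hxG
  have hcr : cr y x ≠ 0 := by
    intro h0
    apply hy
    funext p
    have h1 : y p * eval x (lf K ℓ) - x p * eval y (lf K ℓ) = ∑ i, ℓ i * cr y x (p, i) := by
      rw [eval_lf, eval_lf, Finset.mul_sum, Finset.mul_sum, ← Finset.sum_sub_distrib]
      refine Finset.sum_congr rfl fun i _ => ?_
      simp only [cr]
      ring
    rw [h0, hyℓ] at h1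
    simp only [Pi.zero_apply, mul_zero, Finset.sum_const_zero, sub_zero] at h1
    exact (mul_eq_zero.1 h1).resolve_right hxℓ
  have hx0 : x ≠ 0 := right_ne_zero hcr
  refine ⟨hcr, ?_⟩
  have hpt : ∀ v : AbsoluteValue K ℝ, Mem v →
      ((k : ℝ) + 1) * Real.log (nm v y) + Real.log (nm v x) + Real.log (v (eval x H)) -
        ((a : ℝ) + 1) * Real.log (v (eval x (lf K ℓ))) - cc v ≤
      ((k : ℝ) + 1) * ct v y x := by
    intro v hv
    obtain ⟨q, hq, hnm⟩ := exists_nm_eq v hcr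
    have h1 := hxJ _ (hBJ q)
    rw [map_sub, map_mul, map_mul, map_pow, map_pow, eval_mf, sub_eq_zero] at h1
    have h2 : eval x (B q) ≠ 0 := by
      intro h0
      rw [h0, mul_zero] at h1
      exact mul_ne_zero (pow_ne_zero _ hq) hxH h1
    have h3 := congrArg (fun z => Real.log (v z)) h1
    simp only [map_mul, map_pow] at h3
    rw [Real.log_mul (pow_ne_zero _ (v.pos hq).ne') (v.pos hxH).ne',
      Real.log_mul (pow_ne_zero _ (v.pos hxℓ).ne') (v.pos h2).ne', Real.log_pow,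
      Real.log_pow] at h3
    have h4 := hcle q v hv x h2
    have h5 : c q v ≤ cc v := Finset.single_le_sum (f := fun q => c q v)
      (fun q _ => hc0 q v hv) (Finset.mem_univ q)
    unfold ct
    rw [hnm]
    push_cast at h3
    linarith
  have hFS1 : FS (fun v => ((k : ℝ) + 1) * Real.log (nm v y) + Real.log (nm v x) +
      Real.log (v (eval x H))) :=
    (((FS_nm hy).mul_left _).add (FS_nm hx0)).add (FS_log hxH)
  have hFS2 : FS (fun v => ((a : ℝ) + 1) * Real.log (v (eval x (lf K ℓ)))) :=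
    (FS_log hxℓ).mul_left _
  have hFS : FS (fun v => ((k : ℝ) + 1) * Real.log (nm v y) + Real.log (nm v x) +
      Real.log (v (eval x H)) - ((a : ℝ) + 1) * Real.log (v (eval x (lf K ℓ))) - cc v) :=
    (hFS1.sub hFS2).sub hccFS
  have h6 := ls_mono hFS ((FS_ct hcr).mul_left ((k : ℝ) + 1)) hpt
  rw [ls_mul_left, ls_sub (hFS1.sub hFS2) hccFS, ls_sub hFS1 hFS2,
    ls_add (((FS_nm hy).mul_left _).add (FS_nm hx0)) (FS_log hxH),
    ls_add ((FS_nm hy).mul_left _) (FS_nm hx0), ls_mul_left, ls_mul_left, ls_log hxH, ls_log hxℓ,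
    ls_nm hy, ls_nm hx0] at h6
  push_cast
  linarith

end Pool.Agent.Helper30.TY
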