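import Mathlib

/-!
# The primary part of a quotient at a maximal ideal
-/

set_option autoImplicit false

namespace Pool.Agent.Helper30.TY

variable {K S : Type} [Field K] [CommRing S] [Algebra K S]

/-- The elements killed by a power of `M`. -/
def Nsp (M I : Ideal S) (k : ℕ) : Submodule K (S ⧸ I) :=
  (Submodule.torsionBySet S (S ⧸ I) ((M ^ k : Ideal S) : Set S)).restrictScalars K

theorem mem_Nsp {M I : Ideal S} {k : ℕ} {z : S ⧸ I} :
    z ∈ Nsp (K := K) M I k ↔ ∀ w ∈ M ^ k, w • z = 0 := by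
  unfold Nsp
  rw [Submodule.restrictScalars_mem, Submodule.mem_torsionBySet_iff]
  exact ⟨fun h w hw => h ⟨w, hw⟩, fun h w => h w.1 w.2⟩

theorem Nsp_mono {M I : Ideal S} {k k' : ℕ} (h : k ≤ k') :
    Nsp (K := K) M I k ≤ Nsp M I k' := by
  intro z hz
  rw [mem_Nsp] at hz ⊢
  exact fun w hw => hz w (Ideal.pow_le_pow_right h hw)

/-- There is an element killed by a power of `M` which is congruent to `1` modulo `M`. -/
theorem exists_unit {M I : Ideal S} [FiniteDimensional K (S ⧸ I)] :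
    ∃ (k : ℕ) (r : S), r - 1 ∈ M ∧ Ideal.Quotient.mk I r ∈ Nsp (K := K) M I k := by
  haveI : IsArtinian S (S ⧸ I) := isArtinian_of_tower K inferInstance
  haveI : IsNoetherian S (S ⧸ I) := isNoetherian_of_tower K inferInstance
  let f : ℕ →o (Submodule S (S ⧸ I))ᵒᵈ :=
    { toFun := fun k => OrderDual.toDual (M ^ k • (⊤ : Submodule S (S ⧸ I)))
      monotone' := by
        intro k k' h
        exact Submodule.smul_mono_left (Ideal.pow_le_pow_right h) }
  obtain ⟨k, hk⟩ := IsArtinian.monotone_stabilizes f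
  have h1 : M ^ k • (⊤ : Submodule S (S ⧸ I)) = M ^ (k + 1) • (⊤ : Submodule S (S ⧸ I)) :=
    hk (k + 1) (Nat.le_succ k)
  have h2 : M ^ k • (⊤ : Submodule S (S ⧸ I)) ≤ M • (M ^ k • (⊤ : Submodule S (S ⧸ I))) := by
    conv_lhs => rw [h1, pow_succ', mul_smul]
  obtain ⟨r, hr, hr0⟩ := Submodule.exists_sub_one_mem_and_smul_eq_zero_of_fg_of_le_smul M _
    (IsNoetherian.noetherian _) h2
  refine ⟨k, r, hr, ?_⟩
  rw [mem_Nsp]
  intro w hw
  have h3 : r • (w • (1 : S ⧸ I)) = 0 := hr0 _ (Submodule.smul_mem_smul hw trivial)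
  rw [smul_comm] at h3
  have h4 : Ideal.Quotient.mk I r = r • (1 : S ⧸ I) := by
    rw [Algebra.smul_def, mul_one]
    rfl
  rw [h4]
  exact h3

/-- The step of the induction. -/
theorem step {I I' I₁ M : Ideal S} {L : S} (hI : ∀ z ∈ I, L * z ∈ I') (hI' : I' ≤ I₁)
    (h1 : ∀ z ∈ I₁, ∃ u, z - L * u ∈ I') (hL : L ∈ I₁) (h1M : I₁ ≤ M) (hM : M ≠ ⊤)
    [FiniteDimensional K (S ⧸ I)] [FiniteDimensional K (S ⧸ I')] [FiniteDimensional K (S ⧸ I₁)]
    (hdim : Module.finrank K (S ⧸ I') = Module.finrank K (S ⧸ I) + Module.finrank K (S ⧸ I₁))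
    {a k : ℕ} (hak : a ≤ Module.finrank K (Nsp (K := K) M I k)) :
    ∃ k', a + 1 ≤ Module.finrank K (Nsp (K := K) M I' k') := by
  -- the multiplication by `L`
  let μS : (S ⧸ I) →ₗ[S] (S ⧸ I') := Submodule.mapQ I I' (LinearMap.mulLeft S L) (by
    intro z hz
    exact hI z hz)
  have hμ : ∀ z : S, μS (Ideal.Quotient.mk I z) = Ideal.Quotient.mk I' (L * z) := fun z => rfl
  let μ : (S ⧸ I) →ₗ[K] (S ⧸ I') := μS.restrictScalars K
  let π : (S ⧸ I') →ₗ[K] (S ⧸ I₁) := (Ideal.Quotient.factorₐ K hI').toLinearMap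
  have hπ : ∀ z : S, π (Ideal.Quotient.mk I' z) = Ideal.Quotient.mk I₁ z := fun z => rfl
  have hπs : Function.Surjective π := by
    intro x
    obtain ⟨z, rfl⟩ := Ideal.Quotient.mk_surjective x
    exact ⟨Ideal.Quotient.mk I' z, rfl⟩
  have hker : LinearMap.ker π ≤ LinearMap.range μ := by
    intro x hx
    obtain ⟨z, rfl⟩ := Ideal.Quotient.mk_surjective x
    rw [LinearMap.mem_ker, hπ, Ideal.Quotient.eq_zero_iff_mem] at hx
    obtain ⟨u, hu⟩ := h1 z hx
    exact ⟨Ideal.Quotient.mk I u, ((Ideal.Quotient.eq).2 hu).symm⟩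
  have hr1 := LinearMap.finrank_range_add_finrank_ker π
  rw [LinearMap.range_eq_top.2 hπs, finrank_top] at hr1
  have hr2 := LinearMap.finrank_range_add_finrank_ker μ
  have hr3 := Submodule.finrank_mono hker
  have hinj : Function.Injective μ := by
    rw [← LinearMap.ker_eq_bot, ← Submodule.finrank_eq_zero]
    omega
  obtain ⟨k', r, hr, hrN⟩ := exists_unit (K := K) (M := M) (I := I')
  refine ⟨max k k', ?_⟩
  have hle : (Nsp (K := K) M I k).map μ ≤ Nsp M I' (max k k') := by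
    rintro x ⟨z, hz, rfl⟩
    refine Nsp_mono (le_max_left k k') ?_
    rw [mem_Nsp]
    intro w hw
    have h2 := mem_Nsp.1 hz w hw
    change w • μS z = 0
    rw [← map_smul, h2, map_zero]
  have hrN' : Ideal.Quotient.mk I' r ∈ Nsp (K := K) M I' (max k k') :=
    Nsp_mono (le_max_right k k') hrN
  have hlt : (Nsp (K := K) M I k).map μ < Nsp M I' (max k k') := by
    refine lt_of_le_of_ne hle fun h => ?_
    rw [← h] at hrN'
    obtain ⟨z, -, hz⟩ := hrN'
    obtain ⟨z, rfl⟩ := Ideal.Quotient.mk_surjective z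
    have h2 : Ideal.Quotient.mk I' (L * z) = Ideal.Quotient.mk I' r := hz
    have h3 : L * z - r ∈ M := h1M (hI' ((Ideal.Quotient.eq).1 h2))
    apply hM
    rw [Ideal.eq_top_iff_one]
    have h4 : L * z ∈ M := M.mul_mem_right _ (h1M hL)
    have h5 : (1 : S) = L * z - (L * z - r) - (r - 1) := by ring
    rw [h5]
    exact M.sub_mem (M.sub_mem h4 h3) hr
  have h2 := Submodule.finrank_lt_finrank_of_lt hlt
  have h3 := (Submodule.equivMapOfInjective μ hinj (Nsp (K := K) M I k)).finrank_eq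
  omega

theorem mem_three {J : Ideal S} {L c z : S}
    (hz : z ∈ (J ⊔ Ideal.span {L}) ⊔ Ideal.span {c}) :
    ∃ j ∈ J, ∃ u v, z = j + u * L + v * c := by
  obtain ⟨z₁, hz₁, z₂, hz₂, rfl⟩ := Submodule.mem_sup.1 hz
  obtain ⟨j, hj, z₃, hz₃, rfl⟩ := Submodule.mem_sup.1 hz₁
  obtain ⟨v, rfl⟩ := Ideal.mem_span_singleton'.1 hz₂
  obtain ⟨u, rfl⟩ := Ideal.mem_span_singleton'.1 hz₃
  exact ⟨j, hj, u, v, rfl⟩

theorem three_mem {J : Ideal S} {L c j : S} (hj : j ∈ J) (u v : S) :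
    j + u * L + v * c ∈ (J ⊔ Ideal.span {L}) ⊔ Ideal.span {c} := by
  refine Ideal.add_mem _ (Ideal.mem_sup_left (Ideal.add_mem _ (Ideal.mem_sup_left hj)
    (Ideal.mem_sup_right ?_))) (Ideal.mem_sup_right ?_)
  · exact Ideal.mul_mem_left _ _ (Ideal.mem_span_singleton_self _)
  · exact Ideal.mul_mem_left _ _ (Ideal.mem_span_singleton_self _)

/-- The primary part at `M` of `L ^ a` has length at least `a`. -/
theorem exists_large {J M : Ideal S} {L c : S} {D : ℕ}
    (hfin : ∀ a : ℕ, FiniteDimensional K (S ⧸ ((J ⊔ Ideal.span {L ^ a}) ⊔ Ideal.span {c})))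
    (hdim : ∀ a : ℕ,
      Module.finrank K (S ⧸ ((J ⊔ Ideal.span {L ^ a}) ⊔ Ideal.span {c})) = a * D)
    (hM : M ≠ ⊤) (hJM : J ≤ M) (hL : L ∈ M) (hc : c ∈ M) (a : ℕ) :
    ∃ k, a ≤ Module.finrank K
      (Nsp (K := K) M ((J ⊔ Ideal.span {L ^ a}) ⊔ Ideal.span {c}) k) := by
  induction a with
  | zero => exact ⟨0, Nat.zero_le _⟩
  | succ a ih =>
    obtain ⟨k, hk⟩ := ih
    haveI := hfin a
    haveI := hfin (a + 1)
    haveI := hfin 1
    refine step (K := K) (I := (J ⊔ Ideal.span {L ^ a}) ⊔ Ideal.span {c})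
      (I₁ := (J ⊔ Ideal.span {L ^ 1}) ⊔ Ideal.span {c}) (M := M) (L := L)
      ?_ ?_ ?_ ?_ ?_ hM ?_ hk
    · intro z hz
      obtain ⟨j, hj, u, v, rfl⟩ := mem_three hz
      have h1 : L * (j + u * L ^ a + v * c) =
          L * j + u * L ^ (a + 1) + (L * v) * c := by ring
      rw [h1]
      exact three_mem (J.mul_mem_left _ hj) _ _
    · intro z hz
      obtain ⟨j, hj, u, v, rfl⟩ := mem_three hz
      have h1 : j + u * L ^ (a + 1) + v * c =
          j + (u * L ^ a) * L ^ 1 + v * c := by ring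
      rw [h1]
      exact three_mem hj _ _
    · intro z hz
      obtain ⟨j, hj, u, v, rfl⟩ := mem_three hz
      refine ⟨u, ?_⟩
      have h1 : j + u * L ^ 1 + v * c - L * u = j + 0 * L ^ (a + 1) + v * c := by ring
      rw [h1]
      exact three_mem hj _ _
    · have h1 : L = 0 + 1 * L ^ 1 + 0 * c := by ring
      have h2 := three_mem (L := L ^ 1) (c := c) J.zero_mem 1 0
      rwa [← h1] at h2
    · intro z hz
      obtain ⟨j, hj, u, v, rfl⟩ := mem_three hz
      refine M.add_mem (M.add_mem (hJM hj) (M.mul_mem_left _ ?_)) (M.mul_mem_left _ hc)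
      rwa [pow_one]
    · rw [hdim, hdim, hdim]
      ring

end Pool.Agent.Helper30.TY
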