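import Pool.Agent.Helper30.ZB.Lin
import Pool.Agent.Helper30.ZB.Quot
import Pool.Agent.Helper30.TY.Step

/-!
# A point of a curve is an ample divisor

`J` is a homogeneous prime ideal of dimension at most one (in projective space), `y` a zero of `J`.
There is a form `H` outside `J` of degree `a` such that `l ^ k * H ∈ J + (ℓ ^ (a + 1))` for all
linear forms `l` which vanish at `y`; here `ℓ` is a fixed linear form which vanishes at `y`.
-/

set_option autoImplicit false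

namespace Pool.Agent.Helper30.TY

open MvPolynomial
open Pool.Agent.Helper30.ZB

variable {ν : ℕ} {K : Type} [Field K]

theorem telescope {J : Ideal (MvPolynomial (Fin (ν + 1)) K)} (hp : J.IsPrime) (hJ : Hom J)
    {h : MvPolynomial (Fin (ν + 1)) K} {e : ℕ} (hh : h.IsHomogeneous e) (hhJ : h ∉ J) (m n : ℕ) :
    R J (m + n * e) = R J m + ∑ i ∈ Finset.range n, R (J ⊔ Ideal.span {h}) (m + (i + 1) * e) := by
  induction n with
  | zero => simp
  | succ n ih =>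
    have h1 := Dim_add hp hJ hh hhJ (m + n * e)
    rw [show m + n * e + e = m + (n + 1) * e by ring] at h1
    rw [h1, ih, Finset.sum_range_succ]
    ring

theorem bounded {J : Ideal (MvPolynomial (Fin (ν + 1)) K)} (hp : J.IsPrime) (hJ : Hom J)
    {δ c₀ : ℕ} (hδ : ∀ m, R J m ≤ δ * m + c₀) {h : MvPolynomial (Fin (ν + 1)) K} {e : ℕ}
    (he : 0 < e) (hh : h.IsHomogeneous e) (hhJ : h ∉ J) (m₀ : ℕ) :
    ∃ m, m₀ ≤ m ∧ R (J ⊔ Ideal.span {h}) m ≤ e * δ := by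
  by_contra hcon
  push Not at hcon
  have h1 : ∀ n, n * (e * δ + 1) ≤ δ * (m₀ + n * e) + c₀ := by
    intro n
    have h2 := telescope hp hJ hh hhJ m₀ n
    have h3 := hδ (m₀ + n * e)
    have h4 : n * (e * δ + 1) ≤
        ∑ i ∈ Finset.range n, R (J ⊔ Ideal.span {h}) (m₀ + (i + 1) * e) := by
      calc n * (e * δ + 1) = ∑ i ∈ Finset.range n, (e * δ + 1) := by simp
        _ ≤ _ := Finset.sum_le_sum fun i _ => hcon _ (by nlinarith)
    omega
  have h5 := h1 (δ * m₀ + c₀ + 1)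
  nlinarith

/-- `l` has no zero on `J = ℓ ^ a = 0`. -/
theorem misses_pow {J : Ideal (MvPolynomial (Fin (ν + 1)) K)} (hJ : Hom J)
    {ℓ c : Fin (ν + 1) → K} {m₁ : ℕ} (hm : Misses (J ⊔ Ideal.span {lf K ℓ}) c m₁) (a : ℕ) :
    Misses (J ⊔ Ideal.span {lf K ℓ ^ a}) c (m₁ + a) := by
  have hI : Hom (J ⊔ Ideal.span {lf K c}) := Dim_hom_sup hJ (Quot_lf_hom c)
  have hm' : Misses (J ⊔ Ideal.span {lf K c}) ℓ m₁ := by
    intro m hmm p hp
    have h1 := hm m hmm p hp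
    rwa [sup_right_comm] at h1
  intro m hmm p hp
  obtain ⟨t, rfl⟩ := Nat.exists_eq_add_of_le hmm
  have hp' : p.IsHomogeneous (m₁ + t + a) := by
    rwa [show m₁ + t + a = m₁ + a + t by ring]
  obtain ⟨p', -, h1⟩ := Quot_div_pow hI hm' (m := m₁ + t) (by omega) a hp'
  rw [sup_right_comm]
  have h2 : p = (p - lf K ℓ ^ a * p') + lf K ℓ ^ a * p' := by ring
  rw [h2]
  exact Ideal.add_mem _ (Ideal.mem_sup_left h1)
    (Ideal.mem_sup_right (Ideal.mul_mem_right _ _ (Ideal.mem_span_singleton_self _)))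

/-- The relation between the Hilbert functions. -/
theorem exists_dims [Infinite K] {J : Ideal (MvPolynomial (Fin (ν + 1)) K)} (hp : J.IsPrime)
    (hJ : Hom J) {δ c₀ : ℕ} (hδ : ∀ m, R J m ≤ δ * m + c₀) {ℓ : Fin (ν + 1) → K}
    (hℓ : lf K ℓ ∉ J) :
    ∃ (c : Fin (ν + 1) → K) (m₂ D : ℕ),
      (∀ a, ∃ m₃, Misses (J ⊔ Ideal.span {lf K ℓ ^ a}) c m₃ ∧
        FiniteDimensional K (Qo (J ⊔ Ideal.span {lf K ℓ ^ a}) c) ∧
        Module.finrank K (Qo (J ⊔ Ideal.span {lf K ℓ ^ a}) c) = a * D ∧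
        ∀ m, m₃ ≤ m → ∀ p : MvPolynomial (Fin (ν + 1)) K, p.IsHomogeneous m →
          cls (J ⊔ Ideal.span {lf K ℓ ^ a}) c p = 0 → p ∈ J ⊔ Ideal.span {lf K ℓ ^ a}) ∧
      ∀ s, R J (m₂ + s) = R J m₂ + s * D := by
  have hℓh : (lf K ℓ).IsHomogeneous 1 := Quot_lf_hom ℓ
  have hℓa : ∀ a, (lf K ℓ ^ a).IsHomogeneous a := fun a => by
    have := hℓh.pow a
    rwa [one_mul] at this
  have hℓJ : ∀ a, lf K ℓ ^ a ∉ J := fun a h => hℓ (hp.mem_of_pow_mem a h)
  obtain ⟨c, m₁, hmiss⟩ := Lin_exists (k := K) (I := J ⊔ Ideal.span {lf K ℓ}) (B := 1 * δ)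
    (fun m₀ => bounded hp hJ hδ one_pos hℓh hℓ m₀)
  have hI : ∀ a, Hom (J ⊔ Ideal.span {lf K ℓ ^ a}) := fun a => Dim_hom_sup hJ (hℓa a)
  obtain ⟨-, m₂, hm₂, hmain⟩ := Quot_main (Dim_hom_sup hJ hℓh) hmiss
  set D := Module.finrank K (Qo (J ⊔ Ideal.span {lf K ℓ}) c) with hD
  have hR : ∀ s, R J (m₂ + s) = R J m₂ + s * D := by
    intro s
    have h1 := telescope hp hJ hℓh hℓ m₂ s
    rw [mul_one] at h1
    rw [h1]
    congr 1
    rw [Finset.sum_congr rfl fun i _ => (hmain (m₂ + (i + 1) * 1) (by omega)).2.2]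
    rw [Finset.sum_const, Finset.card_range, smul_eq_mul]
  refine ⟨c, m₂, D, fun a => ?_, hR⟩
  have hma := misses_pow hJ hmiss a
  obtain ⟨hfin, m₃, hm₃, hmain₃⟩ := Quot_main (hI a) hma
  refine ⟨m₃, fun m hm p hp => hma m (by omega) p hp, hfin, ?_, fun m hm p hp =>
    (hmain₃ m hm).2.1 p hp⟩
  have h1 := Dim_add hp hJ (hℓa a) (hℓJ a) (m₂ + m₃)
  have h2 := (hmain₃ (m₂ + m₃ + a) (by omega)).2.2
  have h3 := hR (m₃ + a)
  have h4 := hR m₃
  rw [show m₂ + (m₃ + a) = m₂ + m₃ + a by ring] at h3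
  rw [h3, h4, h2, add_mul] at h1
  omega

theorem eval_lf (c : Fin (ν + 1) → K) (y : Fin (ν + 1) → K) :
    eval y (lf K c) = ∑ i, c i * y i := by
  unfold lf
  simp

/-- **A point of a curve is an ample divisor.** -/
theorem exists_thick [Infinite K] {J : Ideal (MvPolynomial (Fin (ν + 1)) K)} (hp : J.IsPrime)
    (hJ : Hom J) {δ c₀ : ℕ} (hδ : ∀ m, R J m ≤ δ * m + c₀) {ℓ : Fin (ν + 1) → K}
    (hℓ : lf K ℓ ∉ J) {y : Fin (ν + 1) → K} (hy : y ≠ 0) (hyJ : ∀ g ∈ J, eval y g = 0)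
    (hyℓ : eval y (lf K ℓ) = 0) :
    ∃ (a k : ℕ) (H : MvPolynomial (Fin (ν + 1)) K), H.IsHomogeneous a ∧ H ∉ J ∧
      ∀ l : Fin (ν + 1) → K, eval y (lf K l) = 0 →
        ∃ B : MvPolynomial (Fin (ν + 1)) K, B.IsHomogeneous k ∧
          lf K l ^ (k + 1) * H - lf K ℓ ^ (a + 1) * B ∈ J := by
  classical
  obtain ⟨c, m₂, D, hA, hR⟩ := exists_dims hp hJ hδ hℓ
  -- `l` does not vanish at `y`
  have hcy : eval y (lf K c) ≠ 0 := by
    intro h0
    obtain ⟨m₃, hm₃, -, -, -⟩ := hA 1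
    apply hy
    funext i
    have h1 := hm₃ (m₃ + 1) (by omega) (X i ^ (m₃ + 1)) (isHomogeneous_X_pow i _)
    have h2 : ∀ p ∈ (J ⊔ Ideal.span {lf K ℓ ^ 1}) ⊔ Ideal.span {lf K c}, eval y p = 0 := by
      intro p hp
      obtain ⟨z₁, hz₁, z₂, hz₂, rfl⟩ := Submodule.mem_sup.1 hp
      obtain ⟨j, hj, z₃, hz₃, rfl⟩ := Submodule.mem_sup.1 hz₁
      obtain ⟨v, rfl⟩ := Ideal.mem_span_singleton'.1 hz₂
      obtain ⟨u, rfl⟩ := Ideal.mem_span_singleton'.1 hz₃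
      rw [map_add, map_add, hyJ j hj, map_mul, map_mul, h0, map_pow, hyℓ]
      simp
    have h3 := h2 _ h1
    rw [map_pow, eval_X] at h3
    exact eq_zero_of_pow_eq_zero h3
  set y' : Fin (ν + 1) → K := (eval y (lf K c))⁻¹ • y with hy'
  have hlf' : ∀ l : Fin (ν + 1) → K, eval y' (lf K l) = (eval y (lf K c))⁻¹ * eval y (lf K l) := by
    intro l
    generalize (eval y (lf K c))⁻¹ = b at hy'
    rw [eval_lf, eval_lf, hy', Finset.mul_sum]
    refine Finset.sum_congr rfl fun i _ => ?_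
    rw [Pi.smul_apply, smul_eq_mul]
    ring
  let M : Ideal (MvPolynomial (Fin (ν + 1)) K) := RingHom.ker (eval y')
  have hMmem : ∀ p, p ∈ M ↔ eval y' p = 0 := fun p => RingHom.mem_ker
  have hM : M ≠ ⊤ := by
    rw [Ideal.ne_top_iff_one, hMmem, map_one]
    exact one_ne_zero
  have hJM : J ≤ M := by
    intro g hg
    rw [hMmem, ← sum_homogeneousComponent g, map_sum]
    refine Finset.sum_eq_zero fun i _ => ?_
    have h1 := hyJ _ (hJ g hg i)
    have h2 : eval y' (homogeneousComponent i g) =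
        (eval y (lf K c))⁻¹ ^ i * eval y (homogeneousComponent i g) := by
      have h3 := Pool.Agent.Helper36.aeval_smul_homogeneous (homogeneousComponent_isHomogeneous i g)
        (eval y (lf K c))⁻¹ y
      have h4 := congrArg (fun φ => φ (homogeneousComponent i g))
        (coe_aeval_eq_eval ((eval y (lf K c))⁻¹ • y))
      have h5 := congrArg (fun φ => φ (homogeneousComponent i g)) (coe_aeval_eq_eval y)
      exact h4.symm.trans (h3.trans (congrArg (fun b => (eval y (lf K c))⁻¹ ^ i * b) h5))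
    rw [h2, h1, mul_zero]
  have hℓM : lf K ℓ ∈ M := by
    rw [hMmem, hlf', hyℓ, mul_zero]
  have hcM : lf K c - 1 ∈ M := by
    rw [hMmem, map_sub, hlf', map_one, inv_mul_cancel₀ hcy, sub_self]
  have hfin : ∀ a, FiniteDimensional K (Qo (J ⊔ Ideal.span {lf K ℓ ^ a}) c) := fun a => by
    obtain ⟨m₃, -, h, -, -⟩ := hA a
    exact h
  have hdim : ∀ a, Module.finrank K (Qo (J ⊔ Ideal.span {lf K ℓ ^ a}) c) = a * D := fun a => by
    obtain ⟨m₃, -, -, h, -⟩ := hA a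
    exact h
  -- the form `H`
  set a : ℕ := m₂ + D * (m₂ + 1) with ha
  obtain ⟨k₀, hk₀⟩ := exists_large hfin hdim hM hJM hℓM hcM (a + 1)
  set I' : Ideal (MvPolynomial (Fin (ν + 1)) K) :=
    (J ⊔ Ideal.span {lf K ℓ ^ (a + 1)}) ⊔ Ideal.span {lf K c - 1} with hI'
  haveI : FiniteDimensional K (MvPolynomial (Fin (ν + 1)) K ⧸ I') := hfin (a + 1)
  haveI := Dim_finite J a
  let φ : (MvPolynomial (Fin (ν + 1)) K ⧸ J) →ₗ[K] (MvPolynomial (Fin (ν + 1)) K ⧸ I') :=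
    (Ideal.Quotient.factorₐ K (le_sup_left.trans le_sup_left : J ≤ I')).toLinearMap
  let θ : W J a →ₗ[K] ((MvPolynomial (Fin (ν + 1)) K ⧸ I') ⧸ Nsp (K := K) M I' k₀) :=
    (Nsp (K := K) M I' k₀).mkQ ∘ₗ φ.domRestrict (W J a)
  have hθ : ¬ Function.Injective θ := by
    intro hinj
    have h1 := LinearMap.finrank_le_finrank_of_injective hinj
    have h2 := Submodule.finrank_quotient_add_finrank (Nsp (K := K) M I' k₀)
    have h3 : Module.finrank K (MvPolynomial (Fin (ν + 1)) K ⧸ I') = (a + 1) * D := hdim (a + 1)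
    have h4 : R J a = R J m₂ + D * (m₂ + 1) * D := by
      rw [ha]
      exact hR _
    change R J a ≤ _ at h1
    have h5 : R J a + (a + 1) ≤ (a + 1) * D := by omega
    rw [h4] at h5
    have h6 : (a + 1) * D = D * (m₂ + 1) * D + D * (m₂ + 1) := by
      rw [ha]
      ring
    rw [h6] at h5
    omega
  obtain ⟨x, hx, hx0⟩ : ∃ x : W J a, θ x = 0 ∧ x ≠ 0 := by
    by_contra hcon
    push Not at hcon
    apply hθ
    rw [← LinearMap.ker_eq_bot, LinearMap.ker_eq_bot']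
    exact hcon
  obtain ⟨x, hxW⟩ := x
  obtain ⟨H, hH, rfl⟩ := Dim_mem.1 hxW
  have hHJ : H ∉ J := by
    intro h
    apply hx0
    exact Subtype.ext (Ideal.Quotient.eq_zero_iff_mem.2 h)
  have hHN : Ideal.Quotient.mk I' H ∈ Nsp (K := K) M I' k₀ := by
    have h1 : (Nsp (K := K) M I' k₀).mkQ (Ideal.Quotient.mk I' H) = 0 := hx
    rwa [Submodule.mkQ_apply, Submodule.Quotient.mk_eq_zero] at h1
  obtain ⟨m₃, -, -, -, hm₃⟩ := hA (a + 1)
  refine ⟨a, k₀ + m₃, H, hH, hHJ, fun l hl => ?_⟩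
  have hlM : lf K l ∈ M := by
    rw [hMmem, hlf', hl, mul_zero]
  have h1 : lf K l ^ (k₀ + m₃ + 1) ∈ M ^ k₀ :=
    Ideal.pow_le_pow_right (by omega) (Ideal.pow_mem_pow hlM _)
  have h2 := mem_Nsp.1 hHN _ h1
  have h3 : cls (J ⊔ Ideal.span {lf K ℓ ^ (a + 1)}) c (lf K l ^ (k₀ + m₃ + 1) * H) = 0 := h2
  have hhom : (lf K l ^ (k₀ + m₃ + 1) * H).IsHomogeneous (k₀ + m₃ + 1 + a) := by
    have h4 := ((Quot_lf_hom (K := K) l).pow (k₀ + m₃ + 1)).mul hH
    rwa [one_mul] at h4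
  have h4 := hm₃ _ (by omega) _ hhom h3
  -- extract `B`
  obtain ⟨j, hj, z, hz, hjz⟩ := Submodule.mem_sup.1 h4
  obtain ⟨u, rfl⟩ := Ideal.mem_span_singleton'.1 hz
  refine ⟨homogeneousComponent (k₀ + m₃) u, homogeneousComponent_isHomogeneous _ _, ?_⟩
  have hℓa : (lf K ℓ ^ (a + 1)).IsHomogeneous (a + 1) := by
    have := (Quot_lf_hom (K := K) ℓ).pow (a + 1)
    rwa [one_mul] at this
  have h5 := congrArg (homogeneousComponent (k₀ + m₃ + (a + 1))) hjz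
  rw [map_add, mul_comm u, Dim_comp_mul hℓa] at h5
  have h6 : homogeneousComponent (k₀ + m₃ + (a + 1)) (lf K l ^ (k₀ + m₃ + 1) * H) =
      lf K l ^ (k₀ + m₃ + 1) * H := by
    rw [homogeneousComponent_of_mem (show lf K l ^ (k₀ + m₃ + 1) * H ∈
      homogeneousSubmodule _ _ (k₀ + m₃ + 1 + a) from hhom), if_pos (by omega)]
  rw [h6] at h5
  have h7 : lf K l ^ (k₀ + m₃ + 1) * H - lf K ℓ ^ (a + 1) * homogeneousComponent (k₀ + m₃) u =
      homogeneousComponent (k₀ + m₃ + (a + 1)) j := by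
    rw [← h5]
    ring
  rw [h7]
  exact hJ j hj _

end Pool.Agent.Helper30.TY
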